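import Pool.Agent.J6H29.KA.Main

/-!
# Joseph's question at all scales

The question is whether no set `S` in `P` satisfies `K[log n, n^(log n)] ∩ SAT ⊆ S ⊆ SAT`. By the result
`InseparableIffPNeNP` this is equivalent to `P ≠ NP`. Here we consider inseparability at all scales: every `S ⊆ SAT` in
`P` misses, for some `c` and all large `n`, a formula of `K ∩ SAT` whose length is between `n` and `n ^ c`. We
show that this holds if and only if some language in `NP` is not in `P` at any scale: every `S` in `P` differs from
it, for some `c` and all large `n`, at an input whose length is between `n` and `n ^ c`. The same holds for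
`K[g(n), G(n)]` for all `g` with `g(n) ≥ C log log log n` and all `G` growing faster than every polynomial, and also for
arbitrary `S` in `P` and the strings of `K` (satisfiable or not) at which `S` and `SAT` differ.

The proof is a local form of the proof of `InseparableIffPNeNP`: for every `S` in `P` and every `L` in `NP` there
is `S' ⊆ L` in `P` such that for some `k` and all `2 ≤ n ≤ m`: if `S` and `SAT` agree on the strings of `K` of the
lengths in `[n, m ^ k]` then `S'` and `L` agree on all strings of the lengths in `[n, m]`.

The definitions of machines, universality, `K` and `SAT` are in `Pool.Agent.J6H27.KS.Defs`, those of the two forms of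
hardness at all scales in `Pool.Agent.J6H29.KA.Main`.
-/

set_option autoImplicit false

namespace Pool.Agent.Results.MP_359409_lc.InseparableAtEveryScale

open Pool.Agent.NPC Pool.Agent.J6H27.KS Pool.Agent.J6H29.KA Filter

/-- Universal machines exist. For every universal machine `U`: `K[log n, n^(log n)] ∩ SAT` and the
complement of `SAT` are inseparable at all scales if and only if some `L` in `NP` is hard at all scales; and
for some `C`, for all `g`, `G` such that `g(n) ≥ C log log log n` for all large `n` and `G` grows faster than every
polynomial, `K[g(n), G(n)] ∩ SAT` and the complement of `SAT` are inseparable at all scales if and only if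
`SAT` is hard on `K[g(n), G(n)]` at all scales, if and only if some `L` in `NP` is hard at all scales. -/
theorem result :
    (∃ U : Mach, Universal U) ∧ ∀ U : Mach, Universal U →
      (InseparableAtAllScales (K U (Nat.clog 2) (fun n => n ^ Nat.clog 2 n)) ↔
        ∃ L : Set (List Bool), InNP L ∧ HardOn L Set.univ) ∧
      ∃ C : ℕ, ∀ g G : ℕ → ℕ,
        (∀ᶠ n in atTop, C * Nat.log 2 (Nat.log 2 (Nat.log 2 n)) ≤ g n) →
        (∀ k : ℕ, ∀ᶠ n in atTop, n ^ k ≤ G n) →
        (InseparableAtAllScales (K U g G) ↔ ∃ L : Set (List Bool), InNP L ∧ HardOn L Set.univ) ∧
        (HardOn SAT (K U g G) ↔ ∃ L : Set (List Bool), InNP L ∧ HardOn L Set.univ) := by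
  refine ⟨exists_universal, fun U hU => ?_⟩
  obtain ⟨c, hU⟩ := hU
  exact ⟨(equiv hU (clog_ok _) pow_clog_ok).1, 4 * c + 1, fun g G hg hG => equiv hU hg hG⟩

end Pool.Agent.Results.MP_359409_lc.InseparableAtEveryScale
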