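import Pool.Agent.J6H27.KS.Main
import Pool.Agent.J6H27.KS.Univ

/-!
# Joseph's question on the Kolmogorov-simple part of SAT is equivalent to `P ≠ NP`

For every universal machine `U`, the sets `K[log n, n^(log n)] ∩ SAT` and the complement of `SAT`
are polynomially inseparable if and only if `P ≠ NP`. More generally, for some constant `C` this
holds for `K[g(n), G(n)]` for all functions `g` with `g(n) ≥ C log log log n` and all `G` that grow
faster than every polynomial, even if the complement of `SAT` is replaced by its intersection with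
`K[g(n), G(n)]`.

The definitions of machines, universality, `K`, `SAT`, separability and `P = NP` are in
`Pool.Agent.J6H27.KS.Defs`.
-/

namespace Pool.Agent.Results.MP_359409_lc.InseparableIffPNeNP

open Pool.Agent.NPC Pool.Agent.J6H27.KS Filter

/-- Universal machines exist. For every universal machine `U`: `K[log n, n^(log n)] ∩ SAT` and the
complement of `SAT` are polynomially inseparable if and only if `P ≠ NP`; and for some `C`, for all
`g`, `G` such that `g(n) ≥ C log log log n` for all large `n` and `G` grows faster than every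
polynomial, `K[g(n), G(n)] ∩ SAT` and `K[g(n), G(n)] ∩ co-SAT` are polynomially inseparable if and
only if `P ≠ NP`. -/
theorem result :
    (∃ U : Mach, Universal U) ∧ ∀ U : Mach, Universal U →
      (¬ PolySeparable (K U (Nat.clog 2) (fun n => n ^ Nat.clog 2 n) ∩ SAT) SATᶜ ↔ ¬ PEqNP) ∧
      ∃ C : ℕ, ∀ g G : ℕ → ℕ,
        (∀ᶠ n in atTop, C * Nat.log 2 (Nat.log 2 (Nat.log 2 n)) ≤ g n) →
        (∀ k : ℕ, ∀ᶠ n in atTop, n ^ k ≤ G n) →
        (¬ PolySeparable (K U g G ∩ SAT) (K U g G ∩ SATᶜ) ↔ ¬ PEqNP) := by
  refine ⟨exists_universal, fun U hU => ?_⟩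
  obtain ⟨c, hU⟩ := hU
  refine ⟨not_congr ⟨fun h => ?_, fun h => separable_of_peqnp h _⟩, 4 * c + 1,
    fun g G hg hG => not_congr ⟨fun h => peqnp_of_separable hU hg hG h, fun h => ?_⟩⟩
  · exact peqnp_of_separable hU (clog_ok _) pow_clog_ok
      (h.mono subset_rfl Set.inter_subset_right)
  · exact (separable_of_peqnp h _).mono subset_rfl Set.inter_subset_right

end Pool.Agent.Results.MP_359409_lc.InseparableIffPNeNP
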