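import Pool.Agent.J6H12.MS.Final
import Pool.Agent.J6H27.KS.Univ

/-!
# Separators of the Kolmogorov-simple satisfiable formulas and circuits with `MOD p` gates

Joseph's question: is there no set `S ∈ P` with `K[log n, n ^ log n] ∩ SAT ⊆ S ⊆ SAT`?

We consider the sets `S ∈ P` which agree with `SAT` on `K[log n, n ^ log n]` (for instance
separators), or only on `K[C log log log n, G(n)]` with `G` superpolynomial, and circuits of
constant depth with AND, OR, NOT and `MOD p` gates of unbounded fan-in, `p` an arbitrary prime. Only
the AND and OR gates are counted, and the inputs may be arbitrary functions of small degree over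
`Z/p`. We prove, unconditionally, that such circuits for `S` need exponentially many AND and OR
gates, even if they are right on a little more than half of the strings of an explicit family only,
the same for all `S`. In particular Joseph's question has a positive answer for the separators in
nonuniform quasipolynomial `AC⁰[p]`, for every prime `p`.

The definitions are in `Pool.Agent.J6H12.MS.Defs`, `Pool.Agent.J6H43.KS.Defs` (`Agree`),
`Pool.Agent.J6H27.KS.Defs` (machines, `K`, `SAT`) and `Pool.Agent.W856.CornerDefs` (circuits).

Proof. Helper43's theorem in `PaddingSeparators` (same problem): such an `S` decides `SAT` after a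
trivial padding. The family consists of the padded codes of formulas which say that the majority of
the bits of `l` are true; each bit of the code depends on one bit of `l`. By Razborov and Smolensky
(approximation from the starting files, `Pool.Agent.W856.Corner7`) a small circuit agrees with a
polynomial of small degree over `Z/p` on most `l`, and such a polynomial hardly agrees with majority.
-/

set_option autoImplicit false

namespace Pool.Agent.Results.MP_359409_lc.ModGates

open Pool.Agent.J6H27.KS Pool.Agent.J6H43.KS Pool.Agent.J6H12.MS Filter

/-- Universal machines exist. For every universal machine `U`, `Hard` holds for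
`K[log n, n ^ log n]`, and for some constant `C` it holds for `K[g(n), G(n)]` for all `g`, `G` such
that `g(n) ≥ C log log log n` for all large `n` and `G` grows faster than every polynomial. -/
theorem result :
    (∃ U : Mach, Universal U) ∧ ∀ U : Mach, Universal U →
      Hard (K U (Nat.clog 2) (fun n => n ^ Nat.clog 2 n)) ∧
      ∃ C : ℕ, ∀ g G : ℕ → ℕ,
        (∀ᶠ n in atTop, C * Nat.log 2 (Nat.log 2 (Nat.log 2 n)) ≤ g n) →
        (∀ k : ℕ, ∀ᶠ n in atTop, n ^ k ≤ G n) → Hard (K U g G) := by
  refine ⟨exists_universal, fun U hU => ?_⟩
  obtain ⟨c, hU⟩ := hU
  exact ⟨hard hU (clog_ok _) pow_clog_ok, 4 * c + 1, fun g G hg hG => hard hU hg hG⟩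

end Pool.Agent.Results.MP_359409_lc.ModGates
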