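import Pool.Agent.J6H43.KS.Final
import Pool.Agent.J6H27.KS.Univ

/-!
# Separators of the Kolmogorov-simple satisfiable formulas decide `SAT` after padding

Joseph's question: is there no set `S ∈ P` with `K[log n, n ^ log n] ∩ SAT ⊆ S ⊆ SAT`?

We prove that every such `S ∈ P`, more generally every `S ∈ P` that agrees with `SAT` on
`K[log n, n ^ log n]`, or only on `K[C log log log n, G(n)]` with `G` superpolynomial, decides `SAT`
after a trivial padding: for all but finitely many `x`, `x ∈ SAT` if and only if `padD x ∈ S`, where
`padD x` is `x` preceded by `2 D(|x|)` negation signs, `|x| ≤ D(|x|) ≤ |x|²`. Unconditional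
consequences: no such `S` is in nonuniform `AC⁰`, circuits of constant depth for `S` and the
nondeterministic communication complexity of `S` are large, and `S` is not sparse. So Joseph's
question has a positive answer for the separators in `P ∩ AC⁰`. For every class `F` of languages
closed under the padding and finite changes there is a separator in `P ∩ F` if and only if `P = NP`
and `SAT ∈ F`.

The definitions are in `Pool.Agent.J6H43.KS.Defs`, `Pool.Agent.J6H27.KS.Defs` (machines, `K`,
`SAT`) and `Pool.Agent.H568R2.Defs` (circuits).
-/

set_option autoImplicit false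

namespace Pool.Agent.Results.MP_359409_lc.PaddingSeparators

open Pool.Agent.J6H27.KS Pool.Agent.J6H43.KS Filter

/-- Universal machines exist. For every universal machine `U`, `Conclusion` holds for
`K[log n, n ^ log n]`, and for some constant `C` it holds for `K[g(n), G(n)]` for all `g`, `G` such
that `g(n) ≥ C log log log n` for all large `n` and `G` grows faster than every polynomial. -/
theorem result :
    (∃ U : Mach, Universal U) ∧ ∀ U : Mach, Universal U →
      Conclusion (K U (Nat.clog 2) (fun n => n ^ Nat.clog 2 n)) ∧
      ∃ C : ℕ, ∀ g G : ℕ → ℕ,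
        (∀ᶠ n in atTop, C * Nat.log 2 (Nat.log 2 (Nat.log 2 n)) ≤ g n) →
        (∀ k : ℕ, ∀ᶠ n in atTop, n ^ k ≤ G n) → Conclusion (K U g G) := by
  refine ⟨exists_universal, fun U hU => ?_⟩
  obtain ⟨c, hU⟩ := hU
  exact ⟨conclusion hU (clog_ok _) pow_clog_ok, 4 * c + 1, fun g G hg hG => conclusion hU hg hG⟩

end Pool.Agent.Results.MP_359409_lc.PaddingSeparators
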